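import Pool.Agent.Helper3.AK.Goals4

/-!
# Project AK, goal XT: tail of the number of coincidences
-/

set_option linter.unusedVariables false

namespace Pool.Agent.Helper3.AK

open Equiv

namespace XTaux

variable {n K : ℕ}

open Classical in
theorem cnt_append (Q : List (Fin n) → Fin n × Letter K) (B : List (Fin n) → Finset (Fin n))
    (rest : List (Fin n)) (w : Fin n) : ∀ pre : List (Fin n),
    cnt Q B pre (rest ++ [w]) = cnt Q B pre rest +
      (if ¬ KD Q (pre ++ rest) (Q (pre ++ rest)) ∧ w ∈ B (pre ++ rest) then 1 else 0) := by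
  induction rest with
  | nil =>
    intro pre
    simp [cnt]
  | cons a rest ih =>
    intro pre
    rw [List.cons_append, cnt, cnt, ih (pre ++ [a])]
    simp only [List.append_assoc, List.singleton_append]
    omega

section

variable (x : Fin 2 → Alt n) (g : ℕ → Letter 2) (S : Finset (Fin n)) (d0 : Fin n)

/-- the point of the pass number `τ` -/
noncomputable def pt (i : ℕ) : Fin n := S.toList.getD (i % S.card) d0

/-- start of the pass -/
noncomputable def ps (τ : ℕ) : Fin n := pz x g (τ / S.card) (pt S d0 τ)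

/-- end of the pass -/
noncomputable def pe (τ : ℕ) : Fin n := pz x g (τ / S.card + 1) (pt S d0 τ)

/-- the queries -/
noncomputable def qq (s : List (Fin n)) : Fin n × Letter 2 :=
  (if s.length < S.card then S.toList.getD s.length d0 else s.getD (s.length - S.card) d0,
    g (s.length / S.card))

theorem pe_eq (τ : ℕ) : pe x g S d0 τ = lett x (g (τ / S.card)) (ps x g S d0 τ) := rfl

theorem pt_mem (hS : 0 < S.card) (i : ℕ) : pt S d0 i ∈ S := by
  unfold pt
  have h : i % S.card < S.toList.length := by
    rw [Finset.length_toList]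
    exact Nat.mod_lt _ hS
  rw [List.getD_eq_getElem _ _ h, ← Finset.mem_toList]
  exact List.getElem_mem h

theorem ps_lt (τ : ℕ) (h : τ < S.card) : ps x g S d0 τ = S.toList.getD τ d0 := by
  unfold ps pt
  rw [Nat.div_eq_of_lt h, Nat.mod_eq_of_lt h]
  rfl

theorem ps_ge (hS : 0 < S.card) (τ : ℕ) (h : S.card ≤ τ) :
    ps x g S d0 τ = pe x g S d0 (τ - S.card) := by
  unfold ps pe pt
  have h1 : (τ - S.card) / S.card + 1 = τ / S.card := by
    have := Nat.div_eq_sub_div hS h
    omega
  have h2 : (τ - S.card) % S.card = τ % S.card := (Nat.mod_eq_sub_mod h).symm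
  rw [h1, h2]

theorem qq_eq (hS : 0 < S.card) (τ : ℕ) :
    qq g S d0 ((List.range τ).map (pe x g S d0)) = (ps x g S d0 τ, g (τ / S.card)) := by
  unfold qq
  simp only [List.length_map, List.length_range]
  refine Prod.ext ?_ rfl
  simp only
  split_ifs with h
  · exact (ps_lt x g S d0 τ h).symm
  · push Not at h
    rw [ps_ge x g S d0 hS τ h, List.getD_eq_getElem _ _
      (by rw [List.length_map, List.length_range]; omega)]
    simp

theorem answ_eq (hS : 0 < S.card) (τ : ℕ) :
    answ x (qq g S d0) τ = (List.range τ).map (pe x g S d0) := by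
  induction τ with
  | zero => rfl
  | succ τ ih =>
    rw [answ, ih, qq_eq x g S d0 hS, List.range_succ, List.map_append]
    rfl

/-- known darts after `j` passes -/
noncomputable def kk (j : ℕ) : Finset (Fin n × Letter 2) :=
  (Finset.range j).biUnion fun i =>
    {(ps x g S d0 i, g (i / S.card)), (pe x g S d0 i, flip (g (i / S.card)))}

/-- visited vertices after `j` passes -/
noncomputable def vv (j : ℕ) : Finset (Fin n) := S ∪ (Finset.range j).image (pe x g S d0)

theorem mem_kk (j : ℕ) (d : Fin n × Letter 2) : d ∈ kk x g S d0 j ↔ ∃ i < j,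
    (d = (ps x g S d0 i, g (i / S.card)) ∨ d = (pe x g S d0 i, flip (g (i / S.card)))) := by
  unfold kk
  simp only [Finset.mem_biUnion, Finset.mem_range, Finset.mem_insert, Finset.mem_singleton]

theorem mem_vv (j : ℕ) (v : Fin n) : v ∈ vv x g S d0 j ↔ v ∈ S ∨ ∃ i < j,
    pe x g S d0 i = v := by
  unfold vv
  simp only [Finset.mem_union, Finset.mem_image, Finset.mem_range]

theorem kk_succ (j : ℕ) : kk x g S d0 (j + 1) =
    insert (ps x g S d0 j, g (j / S.card))
      (insert (pe x g S d0 j, flip (g (j / S.card))) (kk x g S d0 j)) := by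
  ext d
  simp only [Finset.mem_insert, mem_kk]
  constructor
  · rintro ⟨i, hi, h⟩
    rcases Nat.lt_succ_iff_lt_or_eq.1 hi with hi | rfl
    · exact Or.inr (Or.inr ⟨i, hi, h⟩)
    · rcases h with h | h
      · exact Or.inl h
      · exact Or.inr (Or.inl h)
  · rintro (h | h | ⟨i, hi, h⟩)
    · exact ⟨j, by omega, Or.inl h⟩
    · exact ⟨j, by omega, Or.inr h⟩
    · exact ⟨i, by omega, h⟩

theorem vv_succ (j : ℕ) : vv x g S d0 (j + 1) = insert (pe x g S d0 j) (vv x g S d0 j) := by
  ext v
  simp only [Finset.mem_insert, mem_vv]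
  constructor
  · rintro (h | ⟨i, hi, h⟩)
    · exact Or.inr (Or.inl h)
    · rcases Nat.lt_succ_iff_lt_or_eq.1 hi with hi | rfl
      · exact Or.inr (Or.inr ⟨i, hi, h⟩)
      · exact Or.inl h.symm
  · rintro (h | h | ⟨i, hi, h⟩)
    · exact Or.inr ⟨j, by omega, h.symm⟩
    · exact Or.inl h
    · exact Or.inr ⟨i, by omega, h⟩

theorem kk_closed (j : ℕ) (v : Fin n) (l : Letter 2) (h : (v, l) ∈ kk x g S d0 j) :
    (lett x l v, flip l) ∈ kk x g S d0 j := by
  rw [mem_kk] at h ⊢
  obtain ⟨i, hi, h | h⟩ := h
  · refine ⟨i, hi, Or.inr ?_⟩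
    rw [Prod.mk.injEq] at h
    rw [pe_eq, h.1, h.2]
  · refine ⟨i, hi, Or.inl ?_⟩
    rw [Prod.mk.injEq] at h
    rw [h.1, h.2, flip_flip, lett_flip, pe_eq]
    simp

theorem kk_vv (hS : 0 < S.card) (j : ℕ) (v : Fin n) (l : Letter 2)
    (h : (v, l) ∈ kk x g S d0 j) : v ∈ vv x g S d0 j := by
  rw [mem_kk] at h
  rw [mem_vv]
  obtain ⟨i, hi, h | h⟩ := h
  · rw [Prod.mk.injEq] at h
    rw [h.1]
    by_cases hc : i < S.card
    · left
      rw [ps_lt x g S d0 i hc, List.getD_eq_getElem _ _ (by rwa [Finset.length_toList]),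
        ← Finset.mem_toList]
      exact List.getElem_mem _
    · push Not at hc
      right
      exact ⟨i - S.card, by omega, (ps_ge x g S d0 hS i hc).symm⟩
  · rw [Prod.mk.injEq] at h
    exact Or.inr ⟨i, hi, h.1.symm⟩

theorem kd_iff (hS : 0 < S.card) (j : ℕ) (d : Fin n × Letter 2) :
    KD (qq g S d0) (answ x (qq g S d0) j) d ↔ d ∈ kk x g S d0 j := by
  unfold KD
  rw [mem_kk, answ_eq x g S d0 hS]
  constructor
  · rintro ⟨s', w, hp, hd⟩
    have hlen := hp.length_le
    simp only [List.length_append, List.length_singleton, List.length_map,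
      List.length_range] at hlen
    have hpre := List.prefix_iff_eq_take.1 hp
    have hs : s' ++ [w] = (List.range (s'.length + 1)).map (pe x g S d0) := by
      rw [hpre, ← List.map_take, List.take_range]
      simp only [List.length_append, List.length_singleton]
      rw [Nat.min_eq_left (by omega)]
    rw [List.range_succ, List.map_append] at hs
    have h2 := List.append_inj hs (by simp)
    have hw : w = pe x g S d0 s'.length := by simpa using h2.2
    refine ⟨s'.length, by omega, ?_⟩
    rw [h2.1, qq_eq x g S d0 hS] at hd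
    rw [hw] at hd
    simpa using hd
  · rintro ⟨i, hi, hd⟩
    refine ⟨(List.range i).map (pe x g S d0), pe x g S d0 i, ?_, ?_⟩
    · have : (List.range i).map (pe x g S d0) ++ [pe x g S d0 i] =
          (List.range (i + 1)).map (pe x g S d0) := by
        rw [List.range_succ, List.map_append]
        rfl
      rw [this]
      refine List.IsPrefix.map _ ?_
      rw [List.prefix_iff_eq_take, List.take_range]
      simp only [List.length_range]
      rw [Nat.min_eq_left (by omega)]
    · rw [qq_eq x g S d0 hS]
      exact hd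

/-- the sets `B` -/
noncomputable def bb (s : List (Fin n)) : Finset (Fin n) := S ∪ s.toFinset

theorem bb_eq (hS : 0 < S.card) (j : ℕ) :
    bb S (answ x (qq g S d0) j) = vv x g S d0 j := by
  rw [answ_eq x g S d0 hS]
  ext v
  rw [mem_vv]
  unfold bb
  simp only [Finset.mem_union, List.mem_toFinset, List.mem_map, List.mem_range]

theorem main_ineq (hS : 0 < S.card) (j : ℕ) :
    ((kk x g S d0 j).card : ℤ) + 2 * S.card ≤ 2 * (vv x g S d0 j).card +
      2 * cnt (qq g S d0) (bb S) [] (answ x (qq g S d0) j) := by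
  classical
  induction j with
  | zero =>
    have h1 : kk x g S d0 0 = ∅ := rfl
    have h2 : vv x g S d0 0 = S := by simp [vv]
    rw [h1, h2]
    simp
  | succ j ih =>
    have hc : cnt (qq g S d0) (bb S) [] (answ x (qq g S d0) (j + 1)) =
        cnt (qq g S d0) (bb S) [] (answ x (qq g S d0) j) +
        (if (ps x g S d0 j, g (j / S.card)) ∉ kk x g S d0 j ∧
          pe x g S d0 j ∈ vv x g S d0 j then 1 else 0) := by
      rw [answ, cnt_append]
      simp only [List.nil_append]
      have hq : qq g S d0 (answ x (qq g S d0) j) = (ps x g S d0 j, g (j / S.card)) := by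
        rw [answ_eq x g S d0 hS, qq_eq x g S d0 hS]
      refine congrArg _ (if_congr ?_ rfl rfl)
      have hp : (lett x (g (j / S.card))) (ps x g S d0 j) = pe x g S d0 j := rfl
      have hk := kd_iff x g S d0 hS j (ps x g S d0 j, g (j / S.card))
      rw [bb_eq x g S d0 hS, hq, hk, hp]
    rw [hc, kk_succ, vv_succ]
    by_cases hd : (ps x g S d0 j, g (j / S.card)) ∈ kk x g S d0 j
    · have h2 : (pe x g S d0 j, flip (g (j / S.card))) ∈ kk x g S d0 j :=
        kk_closed x g S d0 j _ _ hd
      have h3 : pe x g S d0 j ∈ vv x g S d0 j := kk_vv x g S d0 hS j _ _ h2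
      rw [Finset.insert_eq_self.2 h2, Finset.insert_eq_self.2 hd, Finset.insert_eq_self.2 h3]
      push_cast
      have : (0 : ℤ) ≤ (if (ps x g S d0 j, g (j / S.card)) ∉ kk x g S d0 j ∧
          pe x g S d0 j ∈ vv x g S d0 j then 1 else 0) := by positivity
      linarith
    · have hle : (insert (ps x g S d0 j, g (j / S.card))
        (insert (pe x g S d0 j, flip (g (j / S.card))) (kk x g S d0 j))).card ≤
          (kk x g S d0 j).card + 2 := by
        have h1 := Finset.card_insert_le (ps x g S d0 j, g (j / S.card))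
          (insert (pe x g S d0 j, flip (g (j / S.card))) (kk x g S d0 j))
        have h2 := Finset.card_insert_le (pe x g S d0 j, flip (g (j / S.card)))
          (kk x g S d0 j)
        omega
      by_cases hv : pe x g S d0 j ∈ vv x g S d0 j
      · rw [if_pos ⟨hd, hv⟩, Finset.insert_eq_self.2 hv]
        push_cast
        have : ((insert (ps x g S d0 j, g (j / S.card))
          (insert (pe x g S d0 j, flip (g (j / S.card))) (kk x g S d0 j))).card : ℤ) ≤
            (kk x g S d0 j).card + 2 := by exact_mod_cast hle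
        linarith
      · rw [if_neg (fun h => hv h.2), Finset.card_insert_of_notMem hv]
        push_cast
        have : ((insert (ps x g S d0 j, g (j / S.card))
          (insert (pe x g S d0 j, flip (g (j / S.card))) (kk x g S d0 j))).card : ℤ) ≤
            (kk x g S d0 j).card + 2 := by exact_mod_cast hle
        linarith

theorem exists_pt (hS : 0 < S.card) (p : Fin n) (hp : p ∈ S) (s : ℕ) :
    ∃ i < S.card, pt S d0 (s * S.card + i) = p := by
  rw [← Finset.mem_toList] at hp
  obtain ⟨i, hi, he⟩ := List.getElem_of_mem hp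
  have hi' := hi
  rw [Finset.length_toList] at hi'
  refine ⟨i, hi', ?_⟩
  unfold pt
  have : (s * S.card + i) % S.card = i := by
    rw [Nat.add_comm, Nat.add_mul_mod_self_right, Nat.mod_eq_of_lt hi']
  rw [this, List.getD_eq_getElem _ _ hi, he]

theorem div_eq (hS : 0 < S.card) (s i : ℕ) (hi : i < S.card) :
    (s * S.card + i) / S.card = s := by
  rw [Nat.add_comm, Nat.add_mul_div_right _ _ hS, Nat.div_eq_of_lt hi, Nat.zero_add]

theorem lt_of (s i m : ℕ) (hs : s < m) (hi : i < S.card) : s * S.card + i < m * S.card := by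
  calc s * S.card + i < s * S.card + S.card := by omega
    _ = (s + 1) * S.card := by ring
    _ ≤ m * S.card := Nat.mul_le_mul_right _ hs

theorem kn_eq (hS : 0 < S.card) (m : ℕ) : Kn x g S m = kk x g S d0 (m * S.card) := by
  ext d
  rw [mem_kk]
  unfold Kn
  simp only [Finset.mem_biUnion, Finset.mem_range, Finset.mem_union, Finset.mem_image]
  constructor
  · rintro ⟨s, hs, (⟨p, hp, h⟩ | ⟨p, hp, h⟩)⟩
    · obtain ⟨i, hi, he⟩ := exists_pt S d0 hS p hp s
      refine ⟨s * S.card + i, lt_of S s i m hs hi, Or.inl ?_⟩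
      rw [← h]
      unfold ps
      rw [he, div_eq S hS s i hi]
    · obtain ⟨i, hi, he⟩ := exists_pt S d0 hS p hp s
      refine ⟨s * S.card + i, lt_of S s i m hs hi, Or.inr ?_⟩
      rw [← h]
      unfold pe
      rw [he, div_eq S hS s i hi]
  · rintro ⟨i, hi, (h | h)⟩
    · refine ⟨i / S.card, (Nat.div_lt_iff_lt_mul hS).2 hi, Or.inl ⟨pt S d0 i,
        pt_mem S d0 hS i, ?_⟩⟩
      rw [h]
      rfl
    · refine ⟨i / S.card, (Nat.div_lt_iff_lt_mul hS).2 hi, Or.inr ⟨pt S d0 i,
        pt_mem S d0 hS i, ?_⟩⟩
      rw [h]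
      rfl

theorem vis_eq (hS : 0 < S.card) (m : ℕ) : Vis x g S m = vv x g S d0 (m * S.card) := by
  ext v
  rw [mem_vv]
  unfold Vis
  simp only [Finset.mem_biUnion, Finset.mem_range, Finset.mem_image]
  constructor
  · rintro ⟨s, hs, p, hp, h⟩
    rcases s with _ | s
    · left
      rw [← h]
      exact hp
    · right
      obtain ⟨i, hi, he⟩ := exists_pt S d0 hS p hp s
      refine ⟨s * S.card + i, lt_of S s i m (by omega) hi, ?_⟩
      rw [← h]
      unfold pe
      rw [he, div_eq S hS s i hi]
  · rintro (h | ⟨i, hi, h⟩)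
    · exact ⟨0, by omega, v, h, rfl⟩
    · refine ⟨i / S.card + 1, ?_, pt S d0 i, pt_mem S d0 hS i, h⟩
      have := (Nat.div_lt_iff_lt_mul hS).2 hi
      omega

theorem ex_le (hS : 0 < S.card) (m : ℕ) :
    ex x g S m ≤ 2 * cnt (qq g S d0) (bb S) [] (answ x (qq g S d0) (m * S.card)) := by
  have h := main_ineq x g S d0 hS (m * S.card)
  unfold ex
  rw [kn_eq x g S d0 hS m, vis_eq x g S d0 hS m]
  linarith

end

end XTaux

open XTaux

theorem xt (hq : S_QRY) : S_XT := by
  classical
  intro n m b g S hb hn
  have hn0 : 0 < n := by omega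
  have hcard0 : (0 : ℝ) ≤ (Nat.card (Alt n) : ℝ) ^ 2 := by positivity
  have hall : (Nat.card {x : Fin 2 → Alt n // 2 * (b : ℤ) ≤ ex x g S m} : ℝ) ≤
      (Nat.card (Alt n) : ℝ) ^ 2 := by
    have h1 : Nat.card {x : Fin 2 → Alt n // 2 * (b : ℤ) ≤ ex x g S m} ≤
        Nat.card (Fin 2 → Alt n) := Nat.card_le_card_of_injective _ Subtype.val_injective
    have h2 : Nat.card (Fin 2 → Alt n) = Nat.card (Alt n) ^ 2 := by
      rw [Nat.card_fun, Nat.card_fin]
    rw [h2] at h1
    exact_mod_cast h1
  rcases Nat.eq_zero_or_pos S.card with h0 | hS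
  · -- empty set
    have hS0 : S = ∅ := Finset.card_eq_zero.1 h0
    have hemp : Nat.card {x : Fin 2 → Alt n // 2 * (b : ℤ) ≤ ex x g S m} = 0 := by
      rw [Nat.card_eq_zero]
      left
      refine ⟨fun ⟨x, hx⟩ => ?_⟩
      have : ex x g S m = 0 := by
        have e1 : Kn x g ∅ m = ∅ := by
          unfold Kn
          ext d
          simp
        have e2 : Vis x g ∅ m = ∅ := by
          unfold Vis
          ext d
          simp
        unfold ex
        rw [hS0, e1, e2]
        simp
      rw [this] at hx
      have : (1 : ℤ) ≤ b := by exact_mod_cast hb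
      linarith
    rw [hemp, Nat.cast_zero]
    positivity
  · let d0 : Fin n := ⟨0, hn0⟩
    set N : ℕ := S.card * (m + 1) with hN
    set Nq : ℕ := m * S.card with hNq
    have hNN : Nq + S.card = N := by
      rw [hN, hNq]; ring
    have hNpos : 0 < N := by omega
    set θ : ℝ := (b : ℝ) * n / (2 * (N : ℝ) ^ 2) with hθ
    have hbR : (0 : ℝ) < b := by exact_mod_cast hb
    have hnR : (0 : ℝ) < n := by exact_mod_cast hn0
    have hNR : (0 : ℝ) < N := by exact_mod_cast hNpos
    have hθpos : 0 < θ := by positivity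
    have hbase : 2 * Real.exp 1 * (N : ℝ) ^ 2 / (b * n) = Real.exp 1 / θ := by
      rw [hθ]
      field_simp
    rw [hbase]
    rcases lt_or_ge θ 1 with hlt | hge
    · refine hall.trans ?_
      have : (1 : ℝ) ≤ (Real.exp 1 / θ) ^ b := by
        refine one_le_pow₀ ?_
        rw [one_le_div hθpos]
        have := Real.one_le_exp (zero_le_one (α := ℝ))
        linarith
      nlinarith
    · have hQ := hq n 2 Nq N θ (qq g S d0) (bb S) hθpos.le (by omega) (by
        intro s hs
        unfold bb
        have h1 := Finset.card_union_le S s.toFinset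
        have h2 := List.toFinset_card_le s
        omega)
      have hsum : (Nat.card {x : Fin 2 → Alt n // 2 * (b : ℤ) ≤ ex x g S m} : ℝ) * θ ^ b ≤
          ∑ x : Fin 2 → Alt n, θ ^ cnt (qq g S d0) (bb S) [] (answ x (qq g S d0) Nq) := by
        rw [Nat.card_eq_fintype_card, Fintype.card_subtype]
        calc ((Finset.univ.filter fun x : Fin 2 → Alt n => 2 * (b : ℤ) ≤ ex x g S m).card : ℝ)
              * θ ^ b
            = ∑ x ∈ Finset.univ.filter fun x : Fin 2 → Alt n => 2 * (b : ℤ) ≤ ex x g S m,
                θ ^ b := by rw [Finset.sum_const, nsmul_eq_mul]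
          _ ≤ ∑ x ∈ Finset.univ.filter fun x : Fin 2 → Alt n => 2 * (b : ℤ) ≤ ex x g S m,
                θ ^ cnt (qq g S d0) (bb S) [] (answ x (qq g S d0) Nq) := by
              refine Finset.sum_le_sum fun x hx => ?_
              refine pow_le_pow_right₀ hge ?_
              have h1 := (Finset.mem_filter.1 hx).2
              have h2 := ex_le x g S d0 hS m
              have h3 : (2 : ℤ) * b ≤ 2 * cnt (qq g S d0) (bb S) [] (answ x (qq g S d0) Nq) :=
                h1.trans h2
              have : (b : ℤ) ≤ cnt (qq g S d0) (bb S) [] (answ x (qq g S d0) Nq) := by linarith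
              exact_mod_cast this
          _ ≤ _ := by
              refine Finset.sum_le_sum_of_subset_of_nonneg (Finset.filter_subset _ _) ?_
              intro x _ _
              positivity
      have hn2 : (2 : ℝ) * N ≤ n := by
        have : 2 * N ≤ n := by omega
        exact_mod_cast this
      have hNqN : (Nq : ℝ) ≤ N := by
        have : Nq ≤ N := by omega
        exact_mod_cast this
      have hexp : (1 + θ * N / ((n : ℝ) - Nq)) ^ Nq ≤ Real.exp 1 ^ b := by
        have hden : 0 < (n : ℝ) - Nq := by linarith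
        have h1 : 1 + θ * N / ((n : ℝ) - Nq) ≤ Real.exp (θ * N / ((n : ℝ) - Nq)) := by
          have := Real.add_one_le_exp (θ * N / ((n : ℝ) - Nq))
          linarith
        have h0 : 0 ≤ 1 + θ * N / ((n : ℝ) - Nq) := by positivity
        calc (1 + θ * N / ((n : ℝ) - Nq)) ^ Nq ≤ Real.exp (θ * N / ((n : ℝ) - Nq)) ^ Nq :=
              pow_le_pow_left₀ h0 h1 _
          _ = Real.exp (Nq * (θ * N / ((n : ℝ) - Nq))) := by rw [← Real.exp_nat_mul]
          _ ≤ Real.exp (b : ℝ) := by
              refine Real.exp_le_exp.2 ?_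
              rw [← mul_div_assoc, div_le_iff₀ hden]
              have h3 : θ * (2 * (N : ℝ) ^ 2) = b * n := by
                rw [hθ]
                field_simp
              have h4 : (Nq : ℝ) * (θ * N) ≤ θ * (N : ℝ) ^ 2 := by
                have : (Nq : ℝ) * (θ * N) ≤ N * (θ * N) :=
                  mul_le_mul_of_nonneg_right hNqN (by positivity)
                linarith [this]
              have h5 : (b : ℝ) * n ≤ 2 * (b * (n - Nq)) := by
                have : (n : ℝ) ≤ 2 * (n - Nq) := by linarith
                nlinarith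
              linarith
          _ = Real.exp 1 ^ b := by
              rw [← Real.exp_nat_mul, mul_one]
      have hθb : 0 < θ ^ b := by positivity
      rw [div_pow, ← mul_div_assoc, le_div_iff₀ hθb]
      calc _ ≤ _ := hsum
        _ ≤ _ := hQ
        _ ≤ _ := mul_le_mul_of_nonneg_left hexp hcard0

end Pool.Agent.Helper3.AK

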